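import Pool.Agent.Helper21.HY.Comb

/-!
# Admissible types: several forms
-/

set_option autoImplicit false

namespace Pool.Agent.Helper21.HY

open Pool.Agent.Helper4.HY

theorem ci_pow1 (e : ℕ) : e + 2 ≤ 2 ^ (e + 1) := by
  induction e with
  | zero => norm_num
  | succ e ih => rw [pow_succ]; omega

theorem ci_pow2 (e : ℕ) : 2 * (e + 3) ≤ 4 ^ (e + 2) := by
  induction e with
  | zero => norm_num
  | succ e ih => rw [pow_succ]; omega

/-- Numbers for `r` forms of degrees between two and `D`. -/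
theorem admCI (r D : ℕ) (hr : 1 ≤ r) (hD : 3 ≤ D) (d : Fin r → ℕ) (hd : ∀ i, 2 ≤ d i)
    (hd' : ∀ i, d i ≤ D) : ∃ A, 1 ≤ A ∧ Adm A (Fin r) d ∧
      ∑ i, (Nat.choose (A + d i - 1) (d i) + Nat.choose (A + d i - 2) (d i - 1)) ≤
        r * (4 * r) ^ (D * 2 ^ (D - 2)) := by
  obtain ⟨Y, hY⟩ : ∃ Y, Y = (4 * r) ^ (2 ^ (D - 2)) := ⟨_, rfl⟩
  -- `Y` is even and large
  obtain ⟨H, hH⟩ : ∃ H, Y = 2 * H := by
    have : Even Y := by
      rw [hY, Nat.even_pow]
      exact ⟨⟨2 * r, by ring⟩, by positivity⟩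
    exact this.two_dvd
  have hsq : (4 * r) ^ 2 ≤ Y := by
    rw [hY]
    refine Nat.pow_le_pow_right (by omega) ?_
    obtain ⟨e, rfl⟩ : ∃ e, D = e + 3 := ⟨D - 3, by omega⟩
    have := ci_pow1 e
    show 2 ≤ 2 ^ (e + 1)
    omega
  have hDY : 2 * D ≤ Y := by
    obtain ⟨e, rfl⟩ : ∃ e, D = e + 3 := ⟨D - 3, by omega⟩
    calc 2 * (e + 3) ≤ 4 ^ (e + 2) := ci_pow2 e
      _ ≤ (4 * r) ^ (e + 2) := Nat.pow_le_pow_left (by omega) _
      _ ≤ (4 * r) ^ (2 ^ (e + 3 - 2)) := Nat.pow_le_pow_right (by omega) (ci_pow1 e)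
      _ = Y := hY.symm
  have hsq2 : 16 * r ≤ 2 * H := by
    have h1 : 16 * r ≤ (4 * r) ^ 2 := by nlinarith
    omega
  refine ⟨H - 2 * r, by omega, ?_, ?_⟩
  · refine pot D hD r hr (Fin r) d (fun i => ⟨hd i, hd' i⟩) ?_ _ ?_
    · intro j _ _
      calc SS d j ≤ Fintype.card (Fin r) := Finset.card_filter_le _ _
        _ = r := Fintype.card_fin r
        _ ≤ r ^ (D - j + 1) := Nat.le_self_pow (by omega) r
    · rw [← hY]; omega
  · have hone : ∀ i ∈ (Finset.univ : Finset (Fin r)), Nat.choose (H - 2 * r + d i - 1) (d i) +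
        Nat.choose (H - 2 * r + d i - 2) (d i - 1) ≤ Y ^ D := by
      intro i _
      have h2 := hd i
      have h3 := hd' i
      have hn : H - 2 * r + d i - 1 ≤ Y := by omega
      have a1 : 2 * Nat.choose (H - 2 * r + d i - 1) (d i) ≤ Y ^ D :=
        (Nat.mul_le_mul_left 2 (Nat.choose_le_choose _ hn)).trans ((choose_bd Y (d i) h2).trans
          (Nat.pow_le_pow_right (by omega) h3))
      have a2 : 2 * Nat.choose (H - 2 * r + d i - 2) (d i - 1) ≤ Y ^ D := by
        rcases Nat.lt_or_ge 2 (d i) with h4 | h4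
        · exact (Nat.mul_le_mul_left 2 (Nat.choose_le_choose _ (by omega))).trans
            ((choose_bd Y (d i - 1) (by omega)).trans (Nat.pow_le_pow_right (by omega) (by omega)))
        · have h5 : d i = 2 := by omega
          rw [h5]
          have h6 : H - 2 * r + 2 - 2 = H - 2 * r := by omega
          rw [h6, Nat.choose_one_right]
          have h7 : Y ≤ Y ^ D := Nat.le_self_pow (by omega) Y
          omega
      omega
    refine (Finset.sum_le_sum hone).trans ?_
    rw [Finset.sum_const, Finset.card_univ, Fintype.card_fin, smul_eq_mul, hY, ← pow_mul,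
      mul_comm D]

end Pool.Agent.Helper21.HY
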