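import Mathlib
import Pool.Agent.Helper4.HY.Defs4

/-!
# Krull: through every common zero there is an irreducible variety of dimension at least `s`
-/

set_option autoImplicit false

namespace Pool.Agent.Helper21.HY

open MvPolynomial Pool.Agent.Helper4.HY

universe u

/-- Partial substitution: the first `j` variables are replaced by the coordinates of `x`. -/
noncomputable def psub {k : Type u} [Field k] {N : ℕ} (x : Fin N → k) (j : ℕ) :
    MvPolynomial (Fin N) k →ₐ[k] MvPolynomial (Fin N) k :=
  aeval (fun i : Fin N => if i.val < j then C (x i) else X i)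

lemma psub_X {k : Type u} [Field k] {N : ℕ} (x : Fin N → k) (j : ℕ) (i : Fin N) :
    psub x j (X i) = if i.val < j then C (x i) else X i := by
  simp [psub]

lemma psub_comp {k : Type u} [Field k] {N : ℕ} (x : Fin N → k) (j : ℕ) :
    (psub x (j + 1)).comp (psub x j) = psub x (j + 1) := by
  apply MvPolynomial.algHom_ext
  intro i
  rw [AlgHom.comp_apply, psub_X, psub_X]
  by_cases h : i.val < j
  · rw [if_pos h, if_pos (by omega)]
    have : (C (x i) : MvPolynomial (Fin N) k) = algebraMap k _ (x i) := rfl
    rw [this, AlgHom.commutes]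
  · rw [if_neg h, psub_X]

noncomputable def pker {k : Type u} [Field k] {N : ℕ} (x : Fin N → k) (j : ℕ) :
    Ideal (MvPolynomial (Fin N) k) := RingHom.ker (psub x j)

instance pker_prime {k : Type u} [Field k] {N : ℕ} (x : Fin N → k) (j : ℕ) : (pker x j).IsPrime := by
  unfold pker
  exact RingHom.ker_isPrime _

lemma pker_lt {k : Type u} [Field k] {N : ℕ} (x : Fin N → k) (j : ℕ) (hj : j < N) :
    pker x j < pker x (j + 1) := by
  rw [SetLike.lt_iff_le_and_exists]
  refine ⟨?_, X ⟨j, hj⟩ - C (x ⟨j, hj⟩), ?_, ?_⟩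
  · intro G hG
    rw [pker, RingHom.mem_ker] at hG ⊢
    rw [← psub_comp, AlgHom.comp_apply, hG, map_zero]
  · rw [pker, RingHom.mem_ker, map_sub, psub_X, if_pos (by simp)]
    have : (C (x ⟨j, hj⟩) : MvPolynomial (Fin N) k) = algebraMap k _ (x ⟨j, hj⟩) := rfl
    rw [this, AlgHom.commutes, sub_self]
  · rw [pker, RingHom.mem_ker, map_sub, psub_X, if_neg (by simp)]
    have h1 : (C (x ⟨j, hj⟩) : MvPolynomial (Fin N) k) = algebraMap k _ (x ⟨j, hj⟩) := rfl
    rw [h1, AlgHom.commutes]
    intro h0
    have h2 := congrArg (aeval (fun _ : Fin N => x ⟨j, hj⟩ + 1)) h0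
    simp at h2

lemma le_height_pker {k : Type u} [Field k] {N : ℕ} (x : Fin N → k) (j : ℕ) (hj : j ≤ N) :
    (j : ℕ∞) ≤ (pker x j).height := by
  induction j with
  | zero => simp
  | succ j ih =>
    have h1 := ih (by omega)
    have h2 := Ideal.height_add_one_le_of_lt_of_isPrime (pker_lt x j (by omega))
    push_cast
    exact le_trans (by gcongr) h2

lemma pker_eq {k : Type u} [Field k] {N : ℕ} (x : Fin N → k) :
    pker x N = RingHom.ker (aeval x : MvPolynomial (Fin N) k →ₐ[k] k) := by
  have h : psub x N = (Algebra.ofId k (MvPolynomial (Fin N) k)).comp (aeval x) := by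
    apply MvPolynomial.algHom_ext
    intro i
    rw [psub_X, if_pos i.isLt, AlgHom.comp_apply, aeval_X]
    rfl
  ext G
  rw [pker, RingHom.mem_ker, RingHom.mem_ker, h, AlgHom.comp_apply]
  constructor
  · intro h0
    exact (FaithfulSMul.algebraMap_injective k (MvPolynomial (Fin N) k)) (by simpa [Algebra.ofId_apply] using h0)
  · intro h0
    rw [h0, map_zero]

/-- the dimension of `A / q` when a chain starts at `q`. -/
lemma dim_quot {A : Type u} [CommRing A] (l : LTSeries (PrimeSpectrum A)) :
    (l.length : WithBot ℕ∞) ≤ ringKrullDim (A ⧸ l.head.asIdeal) := by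
  rw [ringKrullDim_quotient]
  have h1 : (l.length : WithBot ℕ∞) ≤ (Order.coheight l.head : WithBot ℕ∞) := by
    exact_mod_cast Order.length_le_coheight_head (p := l)
  rw [Order.coheight_eq_krullDim_Ici] at h1
  refine h1.trans (Order.krullDim_le_of_strictMono
    (fun p : Set.Ici l.head => (⟨p.1, p.2⟩ : PrimeSpectrum.zeroLocus (R := A) l.head.asIdeal)) ?_)
  intro a b hab
  exact hab

/-- integral extensions do not raise the dimension. -/
lemma dim_le_of_integral {A B : Type u} [CommRing A] [CommRing B] (g : A →+* B) (hg : g.IsIntegral) :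
    ringKrullDim B ≤ ringKrullDim A := by
  algebraize [g]
  refine Order.krullDim_le_of_strictMono (PrimeSpectrum.comap (algebraMap A B)) ?_
  intro p q hpq
  have := Ideal.IsIntegral.comap_lt_comap (R := A) (I := p.asIdeal) (J := q.asIdeal) hpq
  exact this

theorem sKRU : SKRU.{u} := by
  intro k _ _ r s N hN F x hF
  set I : Ideal (MvPolynomial (Fin N) k) := Ideal.span (Set.range F) with hI
  set m : Ideal (MvPolynomial (Fin N) k) := RingHom.ker (aeval x : MvPolynomial (Fin N) k →ₐ[k] k) with hm
  have hmp : m.IsPrime := RingHom.ker_isPrime _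
  have hIm : I ≤ m := by
    rw [hI, Ideal.span_le]
    rintro _ ⟨i, rfl⟩
    exact hF i
  have h1 : (N : ℕ∞) ≤ m.height := by
    rw [hm, ← pker_eq]
    exact le_height_pker x N le_rfl
  have h2 := Ideal.height_le_height_add_spanFinrank_of_le hIm
  have h3 : I.spanFinrank ≤ r := by
    have h := Submodule.spanFinrank_span_le_ncard_of_finite (R := MvPolynomial (Fin N) k) (Set.finite_range F)
    refine h.trans ?_
    rw [← Set.image_univ]
    refine (Set.ncard_image_le (Set.toFinite _)).trans ?_
    simp [Set.ncard_univ]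
  have h4 : (s : ℕ∞) ≤ (m.map (Ideal.Quotient.mk I)).height := by
    have h5 : ((s + r : ℕ) : ℕ∞) ≤ (m.map (Ideal.Quotient.mk I)).height + (r : ℕ∞) := by
      rw [← hN]
      refine h1.trans (h2.trans ?_)
      gcongr
    push_cast at h5
    exact (ENat.add_le_add_iff_right (ENat.natCast_ne_top r)).mp h5
  have hmp' : (m.map (Ideal.Quotient.mk I)).IsPrime := Ideal.isPrime_map_quotientMk_of_isPrime hIm
  obtain ⟨l, hlast, hlen⟩ := Ideal.exists_ltSeries_length_eq_height (m.map (Ideal.Quotient.mk I))
  have hls : s ≤ l.length := by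
    have : (s : ℕ∞) ≤ (l.length : ℕ∞) := by rw [hlen]; exact h4
    exact_mod_cast this
  have hsurj : Function.Surjective (Ideal.Quotient.mk I) := Ideal.Quotient.mk_surjective
  have hmono : StrictMono (PrimeSpectrum.comap (Ideal.Quotient.mk I)) := by
    refine Monotone.strictMono_of_injective ?_ (PrimeSpectrum.comap_injective_of_surjective _ hsurj)
    intro a b hab
    exact Ideal.comap_mono hab
  set l' := l.map (PrimeSpectrum.comap (Ideal.Quotient.mk I)) hmono with hl'
  have hhead : l'.head.asIdeal = l.head.asIdeal.comap (Ideal.Quotient.mk I) := by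
    rw [hl', LTSeries.head_map]; rfl
  set q := l'.head.asIdeal with hq
  have hqp : q.IsPrime := l'.head.isPrime
  have hdim := dim_quot l'
  have hqm : q ≤ m := by
    have h6 : l'.head ≤ l'.last := LTSeries.head_le_last _
    have h7 : l'.last.asIdeal = m := by
      rw [hl', LTSeries.last_map, hlast]
      change Ideal.comap (Ideal.Quotient.mk I) (Ideal.map (Ideal.Quotient.mk I) m) = m
      rw [Ideal.comap_map_of_surjective _ hsurj, ← RingHom.ker_eq_comap_bot, Ideal.mk_ker]
      exact sup_eq_left.mpr hIm
    rw [← h7]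
    exact h6
  have hIq : I ≤ q := by
    rw [hhead]
    intro a ha
    rw [Ideal.mem_comap, Ideal.Quotient.eq_zero_iff_mem.mpr ha]
    exact zero_mem _
  refine ⟨q, hqp, fun i => hIq (Ideal.subset_span ⟨i, rfl⟩), fun G hG => hqm hG, ?_⟩
  have hdom : Nontrivial (MvPolynomial (Fin N) k ⧸ q) := Ideal.Quotient.nontrivial_iff.mpr hqp.ne_top
  obtain ⟨n, g, hginj, hgint⟩ := exists_integral_inj_algHom_of_fg k (MvPolynomial (Fin N) k ⧸ q)
  have hn : s ≤ n := by
    have h8 := dim_le_of_integral _ hgint
    rw [MvPolynomial.ringKrullDim_of_isNoetherianRing, ringKrullDim_eq_zero_of_field, zero_add,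
      Nat.card_fin] at h8
    have h9 : ((l'.length : ℕ) : WithBot ℕ∞) ≤ ((n : ℕ) : WithBot ℕ∞) := hdim.trans h8
    have h10 : l'.length ≤ n := by exact_mod_cast h9
    have h11 : l'.length = l.length := rfl
    omega
  have hX : AlgebraicIndependent k (fun i : Fin n => g (X i)) := by
    have h12 := (MvPolynomial.algebraicIndependent_X (Fin n) k)
    exact h12.map' hginj
  choose t ht using fun i : Fin n => Ideal.Quotient.mk_surjective (I := q) (g (X i))
  refine ⟨fun j => t (Fin.castLE hn j), ?_⟩
  have h13 := hX.comp (Fin.castLE hn) (Fin.castLE_injective hn)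
  convert h13 using 1
  funext j
  exact ht _

end Pool.Agent.Helper21.HY
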