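import Pool.Agent.Helper4.HY.Defs

/-!
# Admissible types: the combinatorics
-/

set_option autoImplicit false

namespace Pool.Agent.Helper21.HY

open Pool.Agent.Helper4.HY

/-- the number of forms of degree at least `j` -/
def SS {ι : Type} [Fintype ι] (d : ι → ℕ) (j : ℕ) : ℕ := (Finset.univ.filter fun i => j ≤ d i).card

/-- the correction of the prefix sums -/
def corr (D j : ℕ) : ℕ := if j < D then 2 else if j = D then 1 else 0

theorem cntk (e j : ℕ) (hj : 2 ≤ j) :
    (Finset.univ.filter fun k : Fin (e - 1) => j ≤ e - k).card = e + 1 - j := by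
  rw [Finset.card_filter, Fin.sum_univ_eq_sum_range (fun k => if j ≤ e - k then 1 else 0) (e - 1),
    ← Finset.card_filter]
  have : (Finset.range (e - 1)).filter (fun k => j ≤ e - k) = Finset.range (e + 1 - j) := by
    ext k
    simp only [Finset.mem_filter, Finset.mem_range]
    omega
  rw [this, Finset.card_range]

section

variable {ι : Type} [Fintype ι] [DecidableEq ι]

/-- the degrees of the new family -/
def dn (d : ι → ℕ) (i₀ : ι) (p : Σ i, Fin (nn d i₀ i)) : ℕ := d p.1 - (p.2 + ee i₀ p.1)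

theorem SS_dn (d : ι → ℕ) (i₀ : ι) (j : ℕ) (hj : 2 ≤ j) :
    SS (dn d i₀) j = ∑ i, (d i - ee i₀ i + 1 - j) := by
  unfold SS
  rw [Finset.card_filter, Fintype.sum_sigma]
  refine Finset.sum_congr rfl fun i _ => ?_
  rw [← Finset.card_filter]
  have hn : nn d i₀ i = d i - ee i₀ i - 1 := by
    unfold nn ee; split_ifs <;> omega
  have h := cntk (d i - ee i₀ i) j hj
  rw [← h]
  rw [Finset.card_filter, Finset.card_filter,
    Fin.sum_univ_eq_sum_range (fun k => if j ≤ d i - ee i₀ i - k then 1 else 0)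
      (d i - ee i₀ i - 1), ← hn]
  have h5 := Fin.sum_univ_eq_sum_range (fun k => if j ≤ d i - (k + ee i₀ i) then 1 else 0)
    (nn d i₀ i)
  refine Eq.trans h5 ?_
  refine Finset.sum_congr rfl fun k _ => ?_
  have h6 : d i - (k + ee i₀ i) = d i - ee i₀ i - k := by omega
  rw [h6]

theorem sum_SS (d : ι → ℕ) (j D : ℕ) (hD : ∀ i, d i ≤ D) :
    ∑ t ∈ Finset.Icc j D, SS d t = ∑ i, (d i + 1 - j) := by
  unfold SS
  simp_rw [Finset.card_filter]
  rw [Finset.sum_comm]
  refine Finset.sum_congr rfl fun i _ => ?_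
  rw [← Finset.card_filter]
  have : (Finset.Icc j D).filter (fun t => t ≤ d i) = Finset.Icc j (d i) := by
    ext t
    simp only [Finset.mem_filter, Finset.mem_Icc]
    have := hD i
    omega
  rw [this, Nat.card_Icc]

/-- the new numbers of forms -/
theorem key (d : ι → ℕ) (i₀ : ι) (hD : ∀ i, d i ≤ d i₀) (h2 : 2 ≤ d i₀) (j : ℕ) (hj : 2 ≤ j) :
    SS (dn d i₀) j + corr (d i₀) j = ∑ t ∈ Finset.Icc j (d i₀), SS d t := by
  rw [SS_dn d i₀ j hj, sum_SS d j (d i₀) hD]
  rw [← Finset.add_sum_erase _ _ (Finset.mem_univ i₀), ← Finset.add_sum_erase _ (fun i => d i + 1 - j)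
    (Finset.mem_univ i₀)]
  have h1 : ∑ x ∈ Finset.univ.erase i₀, (d x - ee i₀ x + 1 - j) =
      ∑ x ∈ Finset.univ.erase i₀, (d x + 1 - j) := by
    refine Finset.sum_congr rfl fun x hx => ?_
    have : x ≠ i₀ := (Finset.mem_erase.1 hx).1
    simp [ee, this]
  rw [h1]
  have h3 : d i₀ - ee i₀ i₀ + 1 - j + corr (d i₀) j = d i₀ + 1 - j := by
    simp only [ee, corr, if_true]
    split_ifs <;> omega
  omega

theorem dn_ge (d : ι → ℕ) (i₀ : ι) (p : Σ i, Fin (nn d i₀ i)) : 2 ≤ dn d i₀ p := by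
  obtain ⟨i, k⟩ := p
  have := k.2
  unfold nn at this
  unfold dn ee
  simp only
  split_ifs at this ⊢ <;> omega

theorem dn_le (d : ι → ℕ) (i₀ : ι) (D : ℕ) (hD : ∀ i, d i ≤ D) (p : Σ i, Fin (nn d i₀ i)) :
    dn d i₀ p ≤ D := by
  have := hD p.1
  unfold dn
  omega

theorem card_dn (d : ι → ℕ) (i₀ : ι) : Fintype.card (Σ i, Fin (nn d i₀ i)) = SS (dn d i₀) 2 := by
  unfold SS
  rw [Finset.filter_true_of_mem (fun p _ => dn_ge d i₀ p), Finset.card_univ]

/-- the step in terms of `SS` -/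
theorem stp (a : ℕ) (d : ι → ℕ) (i₀ : ι) (h : d i₀ = 2 ∨ SS (dn d i₀) 2 + 1 ≤ a)
    (h' : Adm a (Σ i, Fin (nn d i₀ i)) (dn d i₀)) : Adm (a + 1) ι d := by
  refine Adm.step a ι d i₀ ?_ h'
  rw [card_dn]; exact h

end

theorem exists_top {ι : Type} [Fintype ι] (d : ι → ℕ) (D n : ℕ) (hD : ∀ i, d i ≤ D)
    (hn : SS d D = n + 1) : ∃ i, d i = D := by
  have : (Finset.univ.filter fun i => D ≤ d i).Nonempty := by
    rw [← Finset.card_pos]; unfold SS at hn; omega
  obtain ⟨i, hi⟩ := this
  exact ⟨i, le_antisymm (hD i) (Finset.mem_filter.1 hi).2⟩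

theorem SS_zero {ι : Type} [Fintype ι] {d : ι → ℕ} {j : ℕ} (h : SS d j = 0) (i : ι) : d i < j := by
  by_contra hc
  unfold SS at h
  rw [Finset.card_eq_zero] at h
  have : i ∈ (Finset.univ.filter fun i => j ≤ d i) := Finset.mem_filter.2 ⟨Finset.mem_univ _, not_lt.1 hc⟩
  rw [h] at this
  exact absurd this (Finset.notMem_empty _)

/-! ## Small cases by a list algorithm -/

/-- the value of a list `[S_m, ..., S_2]` at `j` -/
def sval : List ℕ → ℕ → ℕ
  | [], _ => 0
  | n :: l, j => if j = l.length + 2 then n else sval l j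

theorem sval_big : ∀ (l : List ℕ) (j : ℕ), l.length + 1 < j → sval l j = 0
  | [], _, _ => rfl
  | n :: l, j, h => by
    simp only [List.length_cons] at h
    unfold sval
    rw [if_neg (by omega), sval_big l j (by omega)]

/-- the list describes the family -/
def Rep (l : List ℕ) {ι : Type} [Fintype ι] (d : ι → ℕ) : Prop :=
  (∀ i, 2 ≤ d i) ∧ ∀ j, 2 ≤ j → SS d j = sval l j

/-- drop the zeros at the beginning -/
def drop0 : List ℕ → List ℕ
  | [] => []
  | 0 :: l => drop0 l
  | (n + 1) :: l => (n + 1) :: l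

theorem rep_drop0 : ∀ (l : List ℕ) {ι : Type} [Fintype ι] (d : ι → ℕ), Rep l d → Rep (drop0 l) d
  | [], _, _, _, h => h
  | 0 :: l, _, _, d, h => by
    unfold drop0
    refine rep_drop0 l d ⟨h.1, fun j hj => ?_⟩
    rw [h.2 j hj, sval]
    split_ifs with h'
    · rw [sval_big l j (by omega)]
    · rfl
  | (n + 1) :: l, _, _, _, h => h

/-- prefix sums minus two -/
def ps : ℕ → List ℕ → List ℕ
  | _, [] => []
  | s, n :: l => (s + n - 2) :: ps (s + n) l

theorem ps_length : ∀ (s : ℕ) (l : List ℕ), (ps s l).length = l.length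
  | _, [] => rfl
  | s, n :: l => by simp [ps, ps_length]

theorem sval_ps : ∀ (s : ℕ) (l : List ℕ) (j : ℕ), 2 ≤ j → j ≤ l.length + 1 →
    sval (ps s l) j = s + (∑ t ∈ Finset.Icc j (l.length + 1), sval l t) - 2
  | s, [], j, h, h' => by simp at h'; omega
  | s, n :: l, j, h, h' => by
    simp only [List.length_cons] at h' ⊢
    have hs : ∑ t ∈ Finset.Icc j (l.length + 1 + 1), sval (n :: l) t =
        (∑ t ∈ Finset.Icc j (l.length + 1), sval l t) + n := by
      rw [Finset.sum_Icc_succ_top h']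
      congr 1
      · refine Finset.sum_congr rfl fun t ht => ?_
        rw [Finset.mem_Icc] at ht
        rw [sval, if_neg (by omega)]
      · rw [sval, if_pos rfl]
    rw [hs, ps, sval, ps_length]
    split_ifs with h1
    · have : Finset.Icc j (l.length + 1) = ∅ := Finset.Icc_eq_empty (by omega)
      rw [this, Finset.sum_empty]; omega
    · rw [sval_ps (s + n) l j h (by omega)]
      omega

/-- the algorithm -/
def chk : ℕ → List ℕ → Bool
  | 0, l => (drop0 l).isEmpty
  | a + 1, l =>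
    match drop0 l with
    | [] => true
    | 0 :: _ => false
    | (n + 1) :: l' => (l'.isEmpty || decide (sval (n :: ps (n + 1) l') 2 + 1 ≤ a)) &&
        chk a (n :: ps (n + 1) l')

theorem chk_adm : ∀ (a : ℕ) (l : List ℕ), chk a l = true → ∀ (ι : Type) [Fintype ι] (d : ι → ℕ),
    Rep l d → Adm a ι d := by
  intro a
  induction a with
  | zero =>
    intro l hl ι _ d hd
    have h1 := rep_drop0 l d hd
    simp only [chk, List.isEmpty_iff] at hl
    rw [hl] at h1
    refine Adm.nil _ _ _ ⟨fun i => ?_⟩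
    have h2 := h1.2 2 le_rfl
    have h3 := SS_zero (h2.trans rfl) i
    have h4 := h1.1 i
    omega
  | succ a ih =>
    intro l hl ι _ d hd
    classical
    have h1 := rep_drop0 l d hd
    unfold chk at hl
    split at hl
    · rename_i heq
      rw [heq] at h1
      refine Adm.nil _ _ _ ⟨fun i => ?_⟩
      have h2 := h1.2 2 le_rfl
      have h3 := SS_zero (h2.trans rfl) i
      have h4 := h1.1 i
      omega
    · exact absurd hl (by simp)
    · rename_i n l' heq
      rw [heq] at h1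
      simp only [Bool.and_eq_true, Bool.or_eq_true, decide_eq_true_eq, List.isEmpty_iff] at hl
      obtain ⟨hl1, hl2⟩ := hl
      have hmax : ∀ i, d i ≤ l'.length + 2 := by
        intro i
        have h3 : SS d (l'.length + 3) = 0 := by
          rw [h1.2 _ (by omega), sval_big _ _ (by simp)]
        have := SS_zero h3 i
        omega
      have htop : SS d (l'.length + 2) = n + 1 := by
        rw [h1.2 _ (by omega), sval, if_pos rfl]
      obtain ⟨i₀, hi₀⟩ := exists_top d _ n hmax htop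
      have hmax' : ∀ i, d i ≤ d i₀ := by rw [hi₀]; exact hmax
      have hkey := key d i₀ hmax' (by omega)
      rw [hi₀] at hkey
      -- the new list describes the new family
      have hrep : Rep (n :: ps (n + 1) l') (dn d i₀) := by
        refine ⟨dn_ge d i₀, fun j hj => ?_⟩
        have hk := hkey j hj
        unfold sval
        rw [ps_length]
        rcases lt_trichotomy j (l'.length + 2) with hlt | heq' | hgt
        · rw [if_neg (by omega), sval_ps _ _ _ hj (by omega)]
          have hc : corr (l'.length + 2) j = 2 := by unfold corr; rw [if_pos hlt]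
          rw [hc] at hk
          have hs : ∑ t ∈ Finset.Icc j (l'.length + 2), SS d t =
              (∑ t ∈ Finset.Icc j (l'.length + 1), sval l' t) + (n + 1) := by
            rw [Finset.sum_Icc_succ_top (by omega), htop]
            congr 1
            refine Finset.sum_congr rfl fun t ht => ?_
            rw [Finset.mem_Icc] at ht
            rw [h1.2 t (by omega), sval, if_neg (by omega)]
          omega
        · rw [if_pos heq']
          subst heq'
          have hc : corr (l'.length + 2) (l'.length + 2) = 1 := by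
            unfold corr; rw [if_neg (lt_irrefl _), if_pos rfl]
          rw [hc, Finset.Icc_self, Finset.sum_singleton, htop] at hk
          omega
        · rw [if_neg (by omega), sval_big _ _ (by rw [ps_length]; omega)]
          have : Finset.Icc j (l'.length + 2) = ∅ := Finset.Icc_eq_empty (by omega)
          rw [this, Finset.sum_empty] at hk
          omega
      refine stp a d i₀ ?_ (ih _ hl2 _ _ hrep)
      rcases hl1 with h | h
      · left; rw [hi₀, h]; rfl
      · right; rw [hrep.2 2 le_rfl]; exact h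

/-- the list of one form of degree `m` -/
theorem rep_one : ∀ m : ℕ, Rep (List.replicate (m + 1) 1) (fun _ : Unit => m + 2) := by
  intro m
  refine ⟨fun _ => by show 2 ≤ m + 2; omega, fun j hj => ?_⟩
  have h1 : ∀ k j : ℕ, 2 ≤ j → sval (List.replicate k 1) j = if j ≤ k + 1 then 1 else 0 := by
    intro k
    induction k with
    | zero => intro j hj; simp [sval]; omega
    | succ k ih =>
      intro j hj
      rw [List.replicate_succ, sval, List.length_replicate, ih j hj]
      split_ifs <;> omega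
  rw [h1 _ _ hj]
  unfold SS
  split_ifs with h
  · rw [Finset.filter_true_of_mem (fun _ _ => by show j ≤ m + 2; omega)]; rfl
  · rw [Finset.filter_false_of_mem (fun _ _ => by show ¬ j ≤ m + 2; omega)]; rfl

theorem adm5 : Adm 4 Unit (fun _ => 5) := chk_adm 4 _ (by decide) _ _ (rep_one 3)

theorem adm6 : Adm 7 Unit (fun _ => 6) := chk_adm 7 _ (by decide) _ _ (rep_one 4)

theorem adm7 : Adm 18 Unit (fun _ => 7) := chk_adm 18 _ (by decide) _ _ (rep_one 5)

theorem adm8 : Adm 121 Unit (fun _ => 8) := chk_adm 121 _ (by decide +kernel) _ _ (rep_one 6)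

/-! ## The potential -/

theorem geo (C : ℕ) : ∀ m j : ℕ, 1 ≤ j → j ≤ m →
    ∑ t ∈ Finset.Icc j m, C ^ (m - t + 1) ≤ (C + 1) ^ (m - j + 1) := by
  have h : ∀ k : ℕ, ∑ e ∈ Finset.range k, C ^ (e + 1) ≤ (C + 1) ^ k := by
    intro k
    induction k with
    | zero => simp
    | succ k ih =>
      rw [Finset.sum_range_succ, pow_succ (C + 1), mul_add, mul_one, add_comm]
      refine add_le_add ?_ ih
      rw [pow_succ]
      exact Nat.mul_le_mul_right _ (Nat.pow_le_pow_left (Nat.le_succ C) k)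
  intro m j hj hjm
  have e : ∑ t ∈ Finset.Icc j m, C ^ (m - t + 1) = ∑ e ∈ Finset.range (m - j + 1), C ^ (e + 1) := by
    refine Finset.sum_bij' (fun t _ => m - t) (fun e _ => m - e) ?_ ?_ ?_ ?_ ?_
    · intro t ht; rw [Finset.mem_Icc] at ht; rw [Finset.mem_range]; omega
    · intro e he; rw [Finset.mem_range] at he; rw [Finset.mem_Icc]; omega
    · intro t ht; rw [Finset.mem_Icc] at ht; omega
    · intro e he; rw [Finset.mem_range] at he; omega
    · intro t ht; rfl
  rw [e]
  exact h _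

theorem inner (m B T : ℕ) (hm : 3 ≤ m) (hT : (2 * B) ^ (m - 1) + 1 ≤ T)
    (IH : ∀ (ι : Type) [Fintype ι] (d : ι → ℕ), (∀ i, 2 ≤ d i ∧ d i ≤ m - 1) →
      (∀ j, 2 ≤ j → j ≤ m - 1 → SS d j ≤ (4 * B ^ 2) ^ (m - 1 - j + 1)) →
      ∀ a, T ≤ a → Adm a ι d) :
    ∀ n C : ℕ, C + n ≤ 2 * B → ∀ (ι : Type) [Fintype ι] (d : ι → ℕ),
      (∀ i, 2 ≤ d i ∧ d i ≤ m) → SS d m = n →
      (∀ j, 2 ≤ j → j ≤ m → SS d j ≤ C ^ (m - j + 1)) → ∀ a, n + T ≤ a → Adm a ι d := by
  intro n
  induction n with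
  | zero =>
    intro C hC ι _ d hd h0 hS a ha
    refine IH ι d (fun i => ⟨(hd i).1, ?_⟩) ?_ a (by omega)
    · have := SS_zero h0 i
      omega
    · intro j hj hjm
      refine (hS j hj (by omega)).trans ?_
      have h1 : C ^ (m - j + 1) ≤ (2 * B) ^ (m - j + 1) := Nat.pow_le_pow_left (by omega) _
      refine h1.trans ?_
      have h2 : (4 * B ^ 2) ^ (m - 1 - j + 1) = (2 * B) ^ (2 * (m - 1 - j + 1)) := by
        rw [pow_mul]; congr 1; ring
      rw [h2]
      rcases Nat.eq_zero_or_pos B with hB | hB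
      · subst hB
        rw [Nat.mul_zero, zero_pow (by omega), zero_pow (by omega)]
      · exact Nat.pow_le_pow_right (by omega) (by omega)
  | succ n ih =>
    intro C hC ι _ d hd hn hS a ha
    classical
    obtain ⟨a, rfl⟩ : ∃ b, a = b + 1 := ⟨a - 1, by omega⟩
    obtain ⟨i₀, hi₀⟩ := exists_top d m n (fun i => (hd i).2) hn
    have hmax : ∀ i, d i ≤ d i₀ := by rw [hi₀]; exact fun i => (hd i).2
    have hk := key d i₀ hmax (by omega)
    rw [hi₀] at hk
    have hb : ∀ j, 2 ≤ j → j ≤ m → SS (dn d i₀) j ≤ (C + 1) ^ (m - j + 1) := by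
      intro j hj hjm
      have h1 := hk j hj
      have h2 : ∑ t ∈ Finset.Icc j m, SS d t ≤ ∑ t ∈ Finset.Icc j m, C ^ (m - t + 1) := by
        refine Finset.sum_le_sum fun t ht => ?_
        rw [Finset.mem_Icc] at ht
        exact hS t (by omega) ht.2
      have h3 := geo C m j (by omega) hjm
      omega
    refine stp a d i₀ (Or.inr ?_) ?_
    · have h1 := hb 2 le_rfl (by omega)
      have h2 : (C + 1) ^ (m - 2 + 1) ≤ (2 * B) ^ (m - 1) := by
        have : m - 2 + 1 = m - 1 := by omega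
        rw [this]
        exact Nat.pow_le_pow_left (by omega) _
      omega
    · refine ih (C + 1) (by omega) _ (dn d i₀) (fun p => ⟨dn_ge d i₀ p, ?_⟩) ?_ hb a (by omega)
      · exact dn_le d i₀ m (fun i => (hd i).2) p
      · have h1 := hk m (by omega)
        have hc : corr m m = 1 := by unfold corr; rw [if_neg (lt_irrefl _), if_pos rfl]
        rw [hc, Finset.Icc_self, Finset.sum_singleton, hn] at h1
        omega

/-- quadrics only -/
theorem quad : ∀ (a : ℕ) (ι : Type) [Fintype ι] (d : ι → ℕ), (∀ i, d i = 2) →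
    Fintype.card ι ≤ a → Adm a ι d := by
  intro a
  induction a with
  | zero =>
    intro ι _ d hd h
    exact Adm.nil _ _ _ (Fintype.card_eq_zero_iff.1 (by omega))
  | succ a ih =>
    intro ι _ d hd h
    classical
    rcases isEmpty_or_nonempty ι with he | ⟨⟨i₀⟩⟩
    · exact Adm.nil _ _ _ he
    · have hcard : SS d 2 = Fintype.card ι := by
        unfold SS
        rw [Finset.filter_true_of_mem (fun i _ => (hd i).ge), Finset.card_univ]
      have hk := key d i₀ (fun i => by rw [hd, hd]) (by rw [hd]) 2 le_rfl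
      have hc : corr 2 2 = 1 := rfl
      rw [hd i₀, hc, Finset.Icc_self, Finset.sum_singleton, hcard] at hk
      refine stp a d i₀ (Or.inl (hd i₀)) (ih _ (dn d i₀) ?_ ?_)
      · intro p
        have h1 := dn_ge d i₀ p
        have h2 := dn_le d i₀ 2 (fun i => (hd i).le) p
        omega
      · rw [card_dn]; omega

/-- the potential lemma -/
theorem pot : ∀ m : ℕ, 3 ≤ m → ∀ B : ℕ, 1 ≤ B → ∀ (ι : Type) [Fintype ι] (d : ι → ℕ),
    (∀ i, 2 ≤ d i ∧ d i ≤ m) → (∀ j, 2 ≤ j → j ≤ m → SS d j ≤ B ^ (m - j + 1)) →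
    ∀ a, (4 * B) ^ (2 ^ (m - 2)) ≤ 2 * a + 4 * B → Adm a ι d := by
  intro m hm
  induction m, hm using Nat.le_induction with
  | base =>
    intro B hB ι _ d hd hS a ha
    have hn : SS d 3 ≤ B := by have := hS 3 (by omega) le_rfl; simpa using this
    simp only [Nat.reduceSub, pow_one] at ha
    refine inner 3 B (4 * B ^ 2 + 1) le_rfl (by simp only [Nat.reduceSub]; nlinarith) ?_
      (SS d 3) B (by omega) ι d hd rfl hS a ?_
    · intro ι _ d hd hS a ha
      refine quad a ι d (fun i => le_antisymm (hd i).2 (hd i).1) ?_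
      have h1 := hS 2 le_rfl (by omega)
      have h2 : SS d 2 = Fintype.card ι := by
        unfold SS
        rw [Finset.filter_true_of_mem (fun i _ => (hd i).1), Finset.card_univ]
      rw [h2] at h1
      simp only [Nat.reduceSub, Nat.reduceAdd, pow_one] at h1
      have : 3 - 1 - 2 + 1 = 1 := rfl
      omega
    · nlinarith
  | succ m hm ih =>
    intro B hB ι _ d hd hS a ha
    have hn : SS d (m + 1) ≤ B := by
      have := hS (m + 1) (by omega) le_rfl; simpa using this
    set Y := (4 * B) ^ (2 ^ (m + 1 - 2)) with hY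
    have hY2 : (4 * (4 * B ^ 2)) ^ (2 ^ (m - 2)) = Y := by
      have e1 : 4 * (4 * B ^ 2) = (4 * B) ^ 2 := by ring
      have e2 : m + 1 - 2 = (m - 2) + 1 := by omega
      rw [hY, e1, ← pow_mul, e2, pow_succ, mul_comm 2]
    -- `Y` is large
    have hpow : 2 * B ≤ (2 * B) ^ m := Nat.le_self_pow (by omega) _
    have hYbig : 2 * (2 * B) ^ m + 8 * B + 2 ≤ Y := by
      have h1 : m + 1 ≤ 2 ^ (m + 1 - 2) := by
        clear hY2 hpow hY Y ih ha hS hd hn
        induction m, hm using Nat.le_induction with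
        | base => norm_num
        | succ k hk ihk =>
          have : k + 1 + 1 - 2 = (k + 1 - 2) + 1 := by omega
          rw [this, pow_succ]
          omega
      have h2 : (4 * B) ^ (m + 1) ≤ Y := Nat.pow_le_pow_right (by omega) h1
      have h3 : (4 * B) ^ (m + 1) = 4 * B * (2 ^ m * (2 * B) ^ m) := by
        rw [pow_succ, mul_comm, ← mul_pow]
        congr 2; ring
      have h4 : 8 ≤ 2 ^ m := by
        calc 8 = 2 ^ 3 := by norm_num
          _ ≤ 2 ^ m := Nat.pow_le_pow_right (by norm_num) hm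
      have h5 : 32 * (2 * B) ^ m ≤ (4 * B) ^ (m + 1) := by
        rw [h3]
        calc 32 * (2 * B) ^ m = 4 * 1 * (8 * (2 * B) ^ m) := by ring
          _ ≤ 4 * B * (2 ^ m * (2 * B) ^ m) := by gcongr
      omega
    refine inner (m + 1) B (a - SS d (m + 1)) (by omega) ?_ ?_ (SS d (m + 1)) B (by omega) ι d hd rfl hS
      a ?_
    · simp only [Nat.add_sub_cancel]
      omega
    · intro ι' _ d' hd' hS' a' ha'
      simp only [Nat.add_sub_cancel] at hd' hS'
      refine ih (4 * B ^ 2) (by nlinarith) ι' d' hd' hS' a' ?_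
      rw [hY2]
      have : B ≤ B ^ 2 := Nat.le_self_pow (by omega) _
      omega
    · omega

/-! ## One form of degree `d` -/

/-- a step from a family with known numbers -/
theorem stp' {ι : Type} [Fintype ι] (d : ι → ℕ) (D : ℕ) (a : ℕ) (S : ℕ → ℕ)
    (hd : ∀ i, 2 ≤ d i ∧ d i ≤ D) (hD : 2 ≤ D) (hS : ∀ j, 2 ≤ j → j ≤ D → SS d j = S j)
    (hpos : 1 ≤ S D) (hcard : (∑ t ∈ Finset.Icc 2 D, S t) - corr D 2 + 1 ≤ a)
    (hnext : ∀ (ι' : Type) [Fintype ι'] (d' : ι' → ℕ), (∀ i, 2 ≤ d' i ∧ d' i ≤ D) →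
      (∀ j, 2 ≤ j → j ≤ D → SS d' j = (∑ t ∈ Finset.Icc j D, S t) - corr D j) → Adm a ι' d') :
    Adm (a + 1) ι d := by
  classical
  have h1 : SS d D = (S D - 1) + 1 := by rw [hS D hD le_rfl]; omega
  obtain ⟨i₀, hi₀⟩ := exists_top d D _ (fun i => (hd i).2) h1
  have hk := key d i₀ (by rw [hi₀]; exact fun i => (hd i).2) (by omega)
  rw [hi₀] at hk
  have h2 : ∀ j, 2 ≤ j → j ≤ D → SS (dn d i₀) j = (∑ t ∈ Finset.Icc j D, S t) - corr D j := by
    intro j hj hjD
    have h3 := hk j hj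
    have h5 : ∑ t ∈ Finset.Icc j D, SS d t = ∑ t ∈ Finset.Icc j D, S t := by
      refine Finset.sum_congr rfl fun t ht => ?_
      rw [Finset.mem_Icc] at ht
      exact hS t (by omega) ht.2
    omega
  refine stp a d i₀ (Or.inr ?_) (hnext _ _ (fun p => ⟨dn_ge d i₀ p, ?_⟩) h2)
  · rw [h2 2 le_rfl hD]; exact hcard
  · exact dn_le d i₀ D (fun i => (hd i).2) p

theorem sum_refl (h : ℕ → ℕ) (j D c : ℕ) (hD : D ≤ c) (hj : j ≤ D) :
    ∑ t ∈ Finset.Icc j D, h (c - t) = ∑ k ∈ Finset.Icc (c - D) (c - j), h k := by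
  refine Finset.sum_bij' (fun t _ => c - t) (fun e _ => c - e) ?_ ?_ ?_ ?_ ?_
  · intro t ht; rw [Finset.mem_Icc] at ht ⊢; omega
  · intro e he; rw [Finset.mem_Icc] at he ⊢; omega
  · intro t ht; rw [Finset.mem_Icc] at ht; omega
  · intro e he; rw [Finset.mem_Icc] at he; omega
  · intro t ht; rfl

/-- the second numbers -/
def h2 (y : ℕ) : ℕ := y * (y + 1) / 2 - 2

theorem sum_id (y : ℕ) : ∑ k ∈ Finset.Icc 1 y, k = y * (y + 1) / 2 := by
  induction y with
  | zero => rfl
  | succ y ih =>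
    rw [Finset.sum_Icc_succ_top (by omega), ih]
    have : (y + 1) * (y + 1 + 1) = y * (y + 1) + (y + 1) * 2 := by ring
    rw [this, Nat.add_mul_div_right _ _ (by norm_num)]

theorem h2_le (y : ℕ) (hy : 3 ≤ y) : h2 (y + 1) ≤ 3 * 4 ^ (y - 2) := by
  have : (y + 1) * (y + 1 + 1) ≤ 2 * (3 * 4 ^ (y - 2) + 2) := by
    induction y, hy using Nat.le_induction with
    | base => norm_num
    | succ y hy ih =>
      have e : y + 1 - 2 = (y - 2) + 1 := by omega
      rw [e, pow_succ]
      nlinarith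
  unfold h2
  omega

theorem sum_h2 (y : ℕ) (hy : 3 ≤ y) : (∑ k ∈ Finset.Icc 2 y, h2 k) - 2 ≤ 4 ^ (y - 2) := by
  induction y, hy using Nat.le_induction with
  | base => decide
  | succ y hy ih =>
    rw [Finset.sum_Icc_succ_top (by omega)]
    have h := h2_le y hy
    have e : y + 1 - 2 = (y - 2) + 1 := by omega
    rw [e, pow_succ]
    omega

/-- the numbers in terms of `e = d - 7` -/
theorem large (e : ℕ) : e + 9 ≤ 4 ^ (e + 2) ∧ (e + 4) * (e + 5) ≤ 2 * 4 ^ (e + 2) ∧
    16 * 4 ^ (e + 2) ≤ 16 ^ (2 ^ (e + 1)) := by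
  refine ⟨?_, ?_, ?_⟩
  · induction e with
    | zero => norm_num
    | succ e ih => rw [show e + 1 + 2 = (e + 2) + 1 by ring, pow_succ]; omega
  · induction e with
    | zero => norm_num
    | succ e ih => rw [show e + 1 + 2 = (e + 2) + 1 by ring, pow_succ]; nlinarith
  · have h1 : e + 2 ≤ 2 ^ (e + 1) := by
      induction e with
      | zero => norm_num
      | succ e ih => rw [pow_succ]; omega
    calc 16 * 4 ^ (e + 2) ≤ 4 ^ (e + 2) * 4 ^ (e + 2) := by
          refine Nat.mul_le_mul_right _ ?_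
          calc 16 = 4 ^ 2 := by norm_num
            _ ≤ 4 ^ (e + 2) := Nat.pow_le_pow_right (by norm_num) (by omega)
      _ = 16 ^ (e + 2) := by rw [← mul_pow]; norm_num
      _ ≤ _ := Nat.pow_le_pow_right (by norm_num) h1

theorem admBig (e H : ℕ) (hH : 16 ^ (2 ^ (e + 1)) = 2 * H) : Adm (H + 3) Unit (fun _ => e + 7) := by
  obtain ⟨g1, g2, g3⟩ := large e
  rw [hH] at g3
  have hU : ∀ j, 2 ≤ j → j ≤ e + 7 → SS (fun _ : Unit => e + 7) j = 1 := by
    intro j hj hj'
    unfold SS
    rw [Finset.filter_true_of_mem (fun _ _ => hj')]; rfl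
  have c1 : ∀ j, 2 ≤ j → j ≤ e + 7 →
      (∑ t ∈ Finset.Icc j (e + 7), (fun _ => 1 : ℕ → ℕ) t) - corr (e + 7) j = e + 6 - j := by
    intro j hj hj'
    simp only [Finset.sum_const, Nat.card_Icc, smul_eq_mul, mul_one]
    unfold corr
    split_ifs <;> omega
  have c2 : ∀ j, 2 ≤ j → j ≤ e + 5 →
      (∑ t ∈ Finset.Icc j (e + 5), (e + 6 - t)) - corr (e + 5) j = h2 (e + 6 - j) := by
    intro j hj hj'
    rw [sum_refl (fun k => k) j (e + 5) (e + 6) (by omega) hj']
    have e1 : e + 6 - (e + 5) = 1 := by omega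
    rw [e1, sum_id]
    unfold h2 corr
    split_ifs with q1 q2
    · rfl
    · have : e + 6 - j = 1 := by omega
      rw [this]
    · omega
  have c3 : ∀ j, 2 ≤ j → j ≤ e + 4 →
      ∑ t ∈ Finset.Icc j (e + 4), h2 (e + 6 - t) = ∑ k ∈ Finset.Icc 2 (e + 6 - j), h2 k := by
    intro j hj hj'
    rw [sum_refl h2 j (e + 4) (e + 6) (by omega) hj']
    have e1 : e + 6 - (e + 4) = 2 := by omega
    rw [e1]
  have c4 : ∀ j, 2 ≤ j → j ≤ e + 3 →
      (∑ t ∈ Finset.Icc j (e + 4), h2 (e + 6 - t)) - corr (e + 4) j ≤ 4 ^ (e + 4 - j) := by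
    intro j hj hj'
    rw [c3 j hj (by omega)]
    have q1 : corr (e + 4) j = 2 := by unfold corr; rw [if_pos (by omega)]
    have q2 := sum_h2 (e + 6 - j) (by omega)
    have q3 : e + 6 - j - 2 = e + 4 - j := by omega
    rw [q1]
    rw [q3] at q2
    exact q2
  refine stp' _ (e + 7) (H + 2) (fun _ => 1) (fun _ => ⟨by omega, le_rfl⟩) (by omega) hU le_rfl ?_ ?_
  · rw [c1 2 le_rfl (by omega)]; omega
  intro ι1 _ d1 hd1 hS1
  have hd1' : ∀ i, d1 i ≤ e + 5 := by
    intro i
    have := hS1 (e + 6) (by omega) (by omega)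
    rw [c1 _ (by omega) (by omega)] at this
    have := SS_zero (this.trans (by omega)) i
    omega
  refine stp' d1 (e + 5) (H + 1) (fun t => e + 6 - t) (fun i => ⟨(hd1 i).1, hd1' i⟩) (by omega) ?_ ?_ ?_ ?_
  · intro j hj hj'
    rw [hS1 j hj (by omega), c1 j hj (by omega)]
  · show 1 ≤ e + 6 - (e + 5)
    omega
  · rw [c2 2 le_rfl (by omega)]
    have : h2 (e + 6 - 2) ≤ 4 ^ (e + 2) := by
      unfold h2
      have q : e + 6 - 2 = e + 4 := by omega
      rw [q]
      have q2 : (e + 4) * (e + 4 + 1) ≤ 2 * 4 ^ (e + 2) := g2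
      omega
    omega
  intro ι2 _ d2 hd2 hS2
  have hd2' : ∀ i, d2 i ≤ e + 4 := by
    intro i
    have h1 := hS2 (e + 5) (by omega) (by omega)
    rw [c2 _ (by omega) (by omega)] at h1
    have q : e + 6 - (e + 5) = 1 := by omega
    rw [q] at h1
    have := SS_zero (h1.trans rfl) i
    omega
  refine stp' d2 (e + 4) H (fun t => h2 (e + 6 - t)) (fun i => ⟨(hd2 i).1, hd2' i⟩) (by omega) ?_ ?_ ?_ ?_
  · intro j hj hj'
    rw [hS2 j hj (by omega), c2 j hj (by omega)]
  · show 1 ≤ h2 (e + 6 - (e + 4))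
    have q : e + 6 - (e + 4) = 2 := by omega
    rw [q]; decide
  · have := c4 2 le_rfl (by omega)
    have q : e + 4 - 2 = e + 2 := by omega
    rw [q] at this
    omega
  intro ι3 _ d3 hd3 hS3
  have hd3' : ∀ i, d3 i ≤ e + 3 := by
    intro i
    have h1 := hS3 (e + 4) (by omega) (by omega)
    rw [c3 _ (by omega) (by omega)] at h1
    have q : e + 6 - (e + 4) = 2 := by omega
    rw [q] at h1
    have q2 : corr (e + 4) (e + 4) = 1 := by unfold corr; rw [if_neg (lt_irrefl _), if_pos rfl]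
    rw [q2] at h1
    have := SS_zero (h1.trans (by decide)) i
    omega
  refine pot (e + 3) (by omega) 4 (by norm_num) ι3 d3 (fun i => ⟨(hd3 i).1, hd3' i⟩) ?_ H ?_
  · intro j hj hj'
    rw [hS3 j hj (by omega)]
    refine (c4 j hj hj').trans (le_of_eq ?_)
    congr 1
    omega
  · have q : e + 3 - 2 = e + 1 := by omega
    rw [q]
    show 16 ^ (2 ^ (e + 1)) ≤ _
    rw [hH]; omega

theorem choose_bd (n k : ℕ) (hk : 2 ≤ k) : 2 * n.choose k ≤ n ^ k := by
  have h1 := Nat.descFactorial_le_pow n k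
  rw [Nat.descFactorial_eq_factorial_mul_choose] at h1
  have h2 : 2 ≤ k.factorial := by
    calc 2 = Nat.factorial 2 := rfl
      _ ≤ k.factorial := Nat.factorial_le hk
  exact (Nat.mul_le_mul_right _ h2).trans h1

theorem admGen (d : ℕ) (hd : 5 ≤ d) : ∃ A, 1 ≤ A ∧ Adm A Unit (fun _ => d) ∧
    Nat.choose (A + d - 1) d + Nat.choose (A + d - 2) (d - 1) ≤ 2 ^ (d * 2 ^ (d - 4)) + 1 := by
  rcases Nat.lt_or_ge d 7 with h7 | h7
  · interval_cases d
    · exact ⟨4, by norm_num, adm5, by decide⟩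
    · exact ⟨7, by norm_num, adm6, by decide⟩
  · obtain ⟨e, rfl⟩ : ∃ e, d = e + 7 := ⟨d - 7, by omega⟩
    obtain ⟨H, hH⟩ : ∃ H, 16 ^ (2 ^ (e + 1)) = 2 * H := by
      have : Even (16 ^ (2 ^ (e + 1))) := by
        rw [Nat.even_pow]; exact ⟨by decide, by positivity⟩
      exact this.two_dvd
    obtain ⟨g1, g2, g3⟩ := large e
    refine ⟨H + 3, by omega, admBig e H hH, ?_⟩
    rw [hH] at g3
    set X := 2 * H with hX
    have a1 : 2 * Nat.choose (H + 3 + (e + 7) - 1) (e + 7) ≤ X ^ (e + 7) :=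
      (Nat.mul_le_mul_left 2 (Nat.choose_le_choose _ (by omega))).trans (choose_bd X (e + 7) (by omega))
    have a2 : 2 * Nat.choose (H + 3 + (e + 7) - 2) (e + 7 - 1) ≤ X ^ (e + 6) :=
      (Nat.mul_le_mul_left 2 (Nat.choose_le_choose _ (by omega))).trans (choose_bd X (e + 6) (by omega))
    have a3 : X ^ (e + 6) ≤ X ^ (e + 7) := Nat.pow_le_pow_right (by omega) (by omega)
    have a4 : X ^ (e + 7) = 2 ^ ((e + 7) * 2 ^ (e + 7 - 4)) := by
      rw [← hH, show (16 : ℕ) = 2 ^ 4 by norm_num, ← pow_mul, ← pow_mul]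
      congr 1
      have : e + 7 - 4 = e + 1 + 2 := by omega
      rw [this, pow_add 2 (e + 1) 2]
      ring
    omega

end Pool.Agent.Helper21.HY
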